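import Pool.Agent.H83.TU.RF

/-!
# THEOREM Q (MP_e49dc9_ag): the relative algebraic closure of a field of functions
-/

set_option autoImplicit false

namespace Pool.Agent.H83.TQ

variable {k K : Type} [Field k] [Field K] [Algebra k K]

/-- the relative algebraic closure of `F` in `K` -/
noncomputable def clo (F : IntermediateField k K) : IntermediateField k K :=
  (algebraicClosure F K).restrictScalars k

theorem mem_clo {F : IntermediateField k K} {x : K} : x ∈ clo F ↔ IsAlgebraic F x := by
  unfold clo
  rw [IntermediateField.mem_restrictScalars, mem_algebraicClosure_iff]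

theorem le_clo (F : IntermediateField k K) : F ≤ clo F := by
  intro x hx
  rw [mem_clo]
  exact isAlgebraic_algebraMap (⟨x, hx⟩ : F)

theorem clo_trdeg (F : IntermediateField k K) : Algebra.trdeg (clo F) K = Algebra.trdeg F K := by
  have h1 := trdeg_add_eq F (algebraicClosure F K) (A := K)
  have h2 : Algebra.trdeg F (algebraicClosure F K) = 0 := trdeg_eq_zero
  rw [h2, zero_add] at h1
  exact h1

theorem clo_closed {F : IntermediateField k K} (x : K) (hx : IsAlgebraic (clo F) x) : x ∈ clo F := by
  have h1 : IsAlgebraic (algebraicClosure F K) x := hx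
  have h2 := mem_algebraicClosure_iff.2 h1
  rw [algebraicClosure.algebraicClosure_eq_bot, IntermediateField.mem_bot] at h2
  obtain ⟨y, rfl⟩ := h2
  exact y.2

theorem finrank_mono_field {F F' : IntermediateField k K} (hle : F ≤ F') (S : Set K)
    (hfin : FiniteDimensional F (Submodule.span F S)) :
    Module.finrank F' (Submodule.span F' S) ≤ Module.finrank F (Submodule.span F S) := by
  obtain ⟨n, hn⟩ : ∃ n, n = Module.finrank F (Submodule.span F S) := ⟨_, rfl⟩
  have b := Module.finBasisOfFinrankEq F (Submodule.span F S) hn.symm
  have h1 : Submodule.span F' S ≤ Submodule.span F' (Set.range fun i => (b i : K)) := by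
    rw [Submodule.span_le]
    intro s hs
    have h2 := b.sum_repr ⟨s, Submodule.subset_span hs⟩
    have h3 := congrArg Subtype.val h2
    rw [Submodule.coe_sum] at h3
    have h4 : s = ∑ i, ((b.repr ⟨s, Submodule.subset_span hs⟩) i : F) • (b i : K) := h3.symm
    rw [h4]
    refine Submodule.sum_mem _ fun i _ => ?_
    have h5 : ((b.repr ⟨s, Submodule.subset_span hs⟩) i : F) • (b i : K) =
        (⟨((b.repr ⟨s, Submodule.subset_span hs⟩) i : K), hle ((b.repr ⟨s, Submodule.subset_span hs⟩) i).2⟩ : F') •
          (b i : K) := rfl
    rw [h5]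
    exact Submodule.smul_mem _ _ (Submodule.subset_span ⟨i, rfl⟩)
  have h6 : Module.finrank F' (Submodule.span F' (Set.range fun i => (b i : K))) ≤ Fintype.card (Fin n) :=
    finrank_range_le_card _
  rw [Fintype.card_fin] at h6
  rw [← hn]
  have h7 : Module.Finite F' (Submodule.span F' (Set.range fun i => (b i : K))) :=
    FiniteDimensional.span_of_finite F' (Set.finite_range _)
  exact (Submodule.finrank_mono h1).trans h6

end Pool.Agent.H83.TQ
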