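import Pool.Agent.H83.TQ.ThB
import Pool.Agent.H83.TQ.Clo
import Pool.Agent.H24.TV.FinV

/-!
# THEOREM Q (MP_e49dc9_ag), chapter (4): geometric form

`fldB`: `D` ample, the sections of `D` vanish to order at most `m` along almost all prime divisors, `m ^ 2 ≤ c h0(D)`, `h0(D)` large,
`h0(D) > (1 + th) vol(D)`: there is a field `F`, algebraically closed in `K`, with `trdeg_F K = 1`, `R_F(D) ≤ γ` and
`dim_F F L(nD) ≤ γ n` for large `n`.
`volB`: under the same hypotheses without the last one: `c₂ h0(D) ≤ vol(D)`.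
-/

set_option autoImplicit false

namespace Pool.Agent.H83.TQ

open Pool.Agent.H54.RV Pool.Agent.H83.TU Pool.Agent.H24.TU Pool.Agent.H24.TV Pool.Agent.H20.TU Pool.Agent.H39.TU

variable {k K : Type} [Field k] [Field K] [Algebra k K] {X : Mod k K}

/-- Theorem I for the sections of an ample divisor -/
theorem geo_I [IsAlgClosed k] [CharZero k] (h : Hyp X) (D : Cart X) (hD : Ample D) (m : ℕ) (hS : StarT D m) (e : ℕ)
    (he : 1 ≤ e) (w : ℝ) (hw : vol D < w) (h1 : (1 + 3 / (e : ℝ)) ^ 3 * w < (h0 D 1 : ℝ))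
    (h2 : e * (2 * e + 2 * m + 2).choose 2 < h0 D 1) :
    ∃ F : IntermediateField k K, Algebra.trdeg F K = 1 ∧ ∃ C : ℝ, ∀ n : ℕ,
      (Module.finrank F (Submodule.span F (secL D n : Set K)) : ℝ) ≤ 27 * (e * w / (h0 D 1 : ℝ)) * n + C := by
  have hess : Algebra.EssFiniteType k K := by
    have h1 := K_fg h.var h.gen
    have h2 := IntermediateField.essFiniteType_iff.2 h1
    exact Algebra.EssFiniteType.of_surjective
      (IntermediateField.topEquiv (F := k) (E := K)).toAlgHom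
      (IntermediateField.topEquiv (F := k) (E := K)).surjective
  have hGF := gf h.var h.gen h.tr
  have hUF := uf_all h.var
  obtain ⟨C₀⟩ := exists_coord (k := k) (K := K) h.tr
  let S : GSys k K :=
    { L := secL D
      one_mem := fun y => by
        rw [pow_zero, mul_one]
        exact (X.O y).one_mem
      mul_mem := by
        intro m n f g hf hg y
        have h1 := (X.O y).mul_mem (hf y) (hg y)
        have h2 : f * g * D.eq y ^ (m + n) = f * D.eq y ^ m * (g * D.eq y ^ n) := by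
          rw [pow_add]
          ring
        rw [h2]
        exact h1
      fin := hGF.1 D
      ne_bot := by
        intro h1
        have h3 : h0 D 1 = 0 := by
          unfold h0
          rw [h1]
          exact finrank_bot k K
        omega
      frac := frac_sec h hUF D hD }
  exact theoremI_B h.tr S (star_m h.var h.gen h.ufd h.tr C₀ D m hS K) he w (vol_ev hGF D w hw) h1 h2

private theorem geo_h2 {e m h : ℕ} (he : 1 ≤ e) (hN : 8 * e * (e + 1) ^ 2 < h)
    (hm : (m : ℝ) ^ 2 ≤ 1 / (8 * (e : ℝ)) * h) : e * (2 * e + 2 * m + 2).choose 2 < h := by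
  have he' : (1 : ℝ) ≤ e := by exact_mod_cast he
  have h3 : ((2 * e + 2 * m + 2).choose 2 : ℝ) = (2 * e + 2 * m + 2) * (2 * e + 2 * m + 1) / 2 := by
    rw [Nat.choose_two_right]
    have hdv : 2 ∣ (2 * e + 2 * m + 2) * (2 * e + 2 * m + 2 - 1) :=
      (Nat.even_mul_pred_self (2 * e + 2 * m + 2)).two_dvd
    rw [Nat.cast_div hdv (by norm_num), show 2 * e + 2 * m + 2 - 1 = 2 * e + 2 * m + 1 by omega]
    push_cast
    ring
  have h4 : (8 * e * (e + 1) ^ 2 : ℝ) < h := by exact_mod_cast hN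
  have h5 : 8 * (e : ℝ) * (m : ℝ) ^ 2 ≤ h := by
    have h6 : 8 * (e : ℝ) * (1 / (8 * (e : ℝ)) * h) = h := by
      field_simp
    calc 8 * (e : ℝ) * (m : ℝ) ^ 2 ≤ 8 * (e : ℝ) * (1 / (8 * (e : ℝ)) * h) :=
          mul_le_mul_of_nonneg_left hm (by positivity)
      _ = h := h6
  have h7 : (e : ℝ) * ((2 * e + 2 * m + 2) * (2 * e + 2 * m + 1) / 2) ≤
      (8 * e * (e + 1) ^ 2 + 8 * (e : ℝ) * (m : ℝ) ^ 2) / 2 := by
    have h8 : ((2 * e + 2 * m + 2 : ℝ)) * (2 * e + 2 * m + 1) / 2 ≤ 4 * (e + 1) ^ 2 + 4 * (m : ℝ) ^ 2 := by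
      have hm0 : (0 : ℝ) ≤ m := Nat.cast_nonneg m
      nlinarith [sq_nonneg ((e : ℝ) + 1 - m)]
    nlinarith
  have h9 : ((e * (2 * e + 2 * m + 2).choose 2 : ℕ) : ℝ) < h := by
    push_cast
    rw [h3]
    linarith
  exact_mod_cast h9

theorem fldB [IsAlgClosed k] [CharZero k] (h : Hyp X) (th : ℝ) (hth : 0 < th) :
    ∃ (N γ : ℕ) (c : ℝ), 0 < c ∧ ∀ (D : Cart X) (m : ℕ), Ample D → StarT D m → N < h0 D 1 →
      (m : ℝ) ^ 2 ≤ c * h0 D 1 → (1 + th) * vol D < h0 D 1 →
      ∃ F : IntermediateField k K, Algebra.trdeg F K = 1 ∧ (∀ x : K, IsAlgebraic F x → x ∈ F) ∧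
        RF h.var h.gen F D ≤ γ ∧
        ∃ n₀ : ℕ, ∀ n ≥ n₀, Module.finrank F (Submodule.span F (secL D n : Set K)) ≤ γ * n := by
  obtain ⟨e, he1, he⟩ := exists_e th hth
  have he' : (1 : ℝ) ≤ e := by exact_mod_cast he1
  refine ⟨8 * e * (e + 1) ^ 2, 27 * e + 1, 1 / (8 * (e : ℝ)), by positivity, fun D m hD hS hN hm hv => ?_⟩
  have hGF := gf h.var h.gen h.tr
  have hq : (0 : ℝ) < (1 + 3 / (e : ℝ)) ^ 3 := by positivity
  have hvol := Pool.Agent.H41.TU.vol_nonneg hGF D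
  have hlt : vol D < h0 D 1 / (1 + 3 / (e : ℝ)) ^ 3 := by
    rw [lt_div_iff₀ hq]
    calc vol D * (1 + 3 / (e : ℝ)) ^ 3 ≤ vol D * (1 + th) := mul_le_mul_of_nonneg_left he.le hvol
      _ = (1 + th) * vol D := mul_comm _ _
      _ < _ := hv
  obtain ⟨w, hw1, hw2⟩ := exists_between hlt
  have hh0 : (0 : ℝ) < h0 D 1 := by exact_mod_cast Nat.zero_lt_of_lt hN
  have hw2' : (1 + 3 / (e : ℝ)) ^ 3 * w < h0 D 1 := by
    rw [lt_div_iff₀ hq, mul_comm] at hw2
    exact hw2
  have hwh : w ≤ h0 D 1 := by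
    have h3 : (1 : ℝ) ≤ (1 + 3 / (e : ℝ)) ^ 3 := by
      apply one_le_pow₀
      have : (0 : ℝ) ≤ 3 / (e : ℝ) := by positivity
      linarith
    have h4 : 0 ≤ w := hvol.trans hw1.le
    nlinarith
  obtain ⟨F, hF, C, hC⟩ := geo_I h D hD m hS e he1 w hw1 hw2' (geo_h2 he1 hN hm)
  obtain ⟨n₀, hn₀⟩ := exists_nat_ge C
  have hgr : ∀ n ≥ n₀, Module.finrank (clo F) (Submodule.span (clo F) (secL D n : Set K)) ≤ (27 * e + 1) * n := by
    intro n hn
    refine (finrank_mono_field (le_clo F) _ (lf_fin D F n (hGF.1 D n))).trans ?_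
    have h3 := hC n
    have h4 : (n₀ : ℝ) ≤ n := by exact_mod_cast hn
    have h5 : 27 * (e * w / (h0 D 1 : ℝ)) * n ≤ 27 * (e : ℝ) * n := by
      have h6 : e * w / (h0 D 1 : ℝ) ≤ e := by
        rw [div_le_iff₀ hh0]
        exact mul_le_mul_of_nonneg_left hwh (by positivity)
      have h7 : (0 : ℝ) ≤ n := Nat.cast_nonneg n
      nlinarith
    have h8 : (Module.finrank F (Submodule.span F (secL D n : Set K)) : ℝ) ≤
        (((27 * e + 1) * n : ℕ) : ℝ) := by
      push_cast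
      linarith
    exact_mod_cast h8
  have hF' : Algebra.trdeg (clo F) K = 1 := by rw [clo_trdeg, hF]
  exact ⟨clo F, hF', clo_closed, rf_le h hGF (un_all h.var) (uf_all h.var) D hD (clo F) hF' (27 * e + 1) n₀ hgr,
    n₀, hgr⟩

theorem volB [IsAlgClosed k] [CharZero k] (h : Hyp X) :
    ∃ (N : ℕ) (c c₂ : ℝ), 0 < c ∧ 0 < c₂ ∧ ∀ (D : Cart X) (m : ℕ), Ample D → StarT D m → N < h0 D 1 →
      (m : ℝ) ^ 2 ≤ c * h0 D 1 → c₂ * h0 D 1 ≤ vol D := by
  refine ⟨32, 1 / 8, 1 / 110, by norm_num, by norm_num, fun D m hD hS hN hm => ?_⟩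
  by_contra hcon
  push Not at hcon
  have hGF := gf h.var h.gen h.tr
  have hUF := uf_all h.var
  have hvol := Pool.Agent.H41.TU.vol_nonneg hGF D
  obtain ⟨w, hw1, hw2⟩ := exists_between hcon
  have hh0 : (0 : ℝ) < h0 D 1 := by exact_mod_cast Nat.zero_lt_of_lt hN
  obtain ⟨F, hF, C, hC⟩ := geo_I h D hD m hS 1 le_rfl w hw1 (by
    norm_num
    linarith) (geo_h2 le_rfl (by norm_num; exact hN) (by
      norm_num
      norm_num at hm
      exact hm))
  obtain ⟨n₀, hn₀⟩ := exists_nat_ge (55 * C)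
  have hsec : ∀ n, secL (D ^ 2) n = secL D (2 * n) := by
    intro n
    ext s
    constructor
    · intro hs x
      have h1 := hs x
      rw [pow_eq, ← pow_mul] at h1
      exact h1
    · intro hs x
      rw [pow_eq, ← pow_mul]
      exact hs x
  have h1 : RF h.var h.gen F (D ^ 2) ≤ 1 := by
    have h2 := rf_le h hGF (un_all h.var) hUF (D ^ 2) (ample_pow D 2 (by norm_num) hD) F hF 1 n₀ fun n hn => ?_
    · exact_mod_cast h2
    · rw [hsec]
      have h3 := hC (2 * n)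
      have h4 : (n₀ : ℝ) ≤ n := by exact_mod_cast hn
      have h5 : 27 * (((1 : ℕ) : ℝ) * w / (h0 D 1 : ℝ)) ≤ 27 / 110 := by
        have h6 : ((1 : ℕ) : ℝ) * w / (h0 D 1 : ℝ) ≤ 1 / 110 := by
          rw [div_le_iff₀ hh0]
          push_cast
          linarith
        linarith
      have h7 : (0 : ℝ) ≤ n := Nat.cast_nonneg n
      have h8 : (Module.finrank F (Submodule.span F (secL D (2 * n) : Set K)) : ℝ) ≤
          ((1 * n : ℕ) : ℝ) := by
        push_cast at h3 ⊢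
        push_cast at h5
        nlinarith
      exact_mod_cast h8
  have hR : RFun (RF h.var h.gen F) := rfun_rf h.var h.gen hUF F hF
  have h2 := hR.amp D hD
  rw [pow_two, hR.add] at h1
  omega

end Pool.Agent.H83.TQ
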