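import Pool.Agent.H24.TU.OrdB
import Pool.Agent.H24.TU.TayOrd

/-!
# [H83 TQ Gen] THEOREM Q (MP_e49dc9_ag), chapter (4): the diagonal ideal is locally generated by `1 (x) c_i - c_i (x) 1`

`R = K (x)_k K`, `I = dI k K` the diagonal ideal, `tp C i := 1 (x) c_i - c_i (x) 1`, `J := (tp C 0, tp C 1, tp C 2)`.
`gen_loc`: for `g` in `I` there is an `s` not in `I` with `s g` in `J`.
PROOF.  `I` is the kernel of `ev`; it is generated by the elements `1 (x) f - f (x) 1` (`g = sum a_j (x) f_j` with `sum a_j f_j = 0` is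
`sum (a_j (x) 1) (1 (x) f_j - f_j (x) 1)`).  So it suffices (product of finitely many `s`) to treat `g = 1 (x) f - f (x) 1`.
`K` is algebraic over `k(c_0,c_1,c_2)` (`C.basis`), so there is a polynomial `Q = sum a_j X^j`, `a_j` in the algebra `k[c_0,c_1,c_2]` (`Algebra.adjoin`),
with `Q(f) = 0` and `Q'(f) ≠ 0` (a nonzero polynomial of least degree with `Q(f) = 0`; characteristic 0).  For `a` in `k[c]` we have `1 (x) a - a (x) 1 ∈ J`
(`Algebra.adjoin_induction`).  `0 = 1 (x) Q(f) - Q(f) (x) 1 = sum_j ((1 (x) a_j)(1 (x) f)^j - (a_j (x) 1)(f (x) 1)^j)`, so modulo `J`: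
`0 = sum_j (a_j (x) 1) ((1 (x) f)^j - (f (x) 1)^j) = g * s`, `s := sum_j (a_j (x) 1) sum_(i < j) (1 (x) f)^i (f (x) 1)^(j-1-i)`
(`Commute.geom_sum₂_mul` / `geom_sum₂_mul`), and `ev s = sum_j j a_j f^(j-1) = Q'(f) ≠ 0`.
ALTERNATIVE: `δ : K → I / (I ^ 2 + J)`, `f ↦ 1 (x) f - f (x) 1`, is a derivation which kills the `c_i`, so it is `0` (`derivation_eq_zero` in `H24/TU/DerEx.lean` or
its proof), so `I = I ^ 2 + J`; `I` is finitely generated if `K (x) K` is noetherian; Nakayama: `Submodule.exists_sub_one_mem_and_smul_le_of_fg_of_le_sup`.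
-/

set_option autoImplicit false

open scoped TensorProduct

namespace Pool.Agent.H83.TQ

open Pool.Agent.H24.TU

universe u

variable {k K : Type u} [Field k] [CharZero k] [Field K] [Algebra k K]

/-- the parameters at the diagonal point -/
noncomputable def tp (C : Coord k K) (i : Fin 3) : K ⊗[k] K := (1 : K) ⊗ₜ[k] C.c i - C.c i ⊗ₜ[k] (1 : K)

/-- the diagonal ideal is generated by the differences -/
theorem dI_eq_span : dI k K = Ideal.span (Set.range fun f : K => (1 : K) ⊗ₜ[k] f - f ⊗ₜ[k] (1 : K)) := by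
  rw [KaehlerDifferential.span_range_eq_ideal]
  have h : (ev k K : (K ⊗[k] K) →ₐ[k] K) = Algebra.TensorProduct.lmul' (S := K) k := by
    ext x
    · simp
    · simp
  ext g
  rw [mem_dI, h]
  exact Iff.rfl

private theorem gl_sub (C : Coord k K) {a : K} (ha : a ∈ Algebra.adjoin k (Set.range C.c)) :
    (1 : K) ⊗ₜ[k] a - a ⊗ₜ[k] (1 : K) ∈ Ideal.span (Set.range (tp C)) := by
  induction ha using Algebra.adjoin_induction with
  | mem x hx =>
    obtain ⟨i, rfl⟩ := hx
    exact Ideal.subset_span ⟨i, rfl⟩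
  | algebraMap r =>
    have h : (1 : K) ⊗ₜ[k] (algebraMap k K r) - (algebraMap k K r) ⊗ₜ[k] (1 : K) = 0 := by
      rw [Algebra.algebraMap_eq_smul_one, TensorProduct.tmul_smul, TensorProduct.smul_tmul', sub_self]
    rw [h]
    exact Ideal.zero_mem _
  | add x y _ _ hx hy =>
    have h : (1 : K) ⊗ₜ[k] (x + y) - (x + y) ⊗ₜ[k] (1 : K) =
        ((1 : K) ⊗ₜ[k] x - x ⊗ₜ[k] (1 : K)) + ((1 : K) ⊗ₜ[k] y - y ⊗ₜ[k] (1 : K)) := by
      rw [TensorProduct.tmul_add, TensorProduct.add_tmul]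
      abel
    rw [h]
    exact Ideal.add_mem _ hx hy
  | mul x y _ _ hx hy =>
    have h : (1 : K) ⊗ₜ[k] (x * y) - (x * y) ⊗ₜ[k] (1 : K) =
        ((1 : K) ⊗ₜ[k] y) * ((1 : K) ⊗ₜ[k] x - x ⊗ₜ[k] (1 : K)) +
          (x ⊗ₜ[k] (1 : K)) * ((1 : K) ⊗ₜ[k] y - y ⊗ₜ[k] (1 : K)) := by
      have e1 : (1 : K) ⊗ₜ[k] (x * y) = ((1 : K) ⊗ₜ[k] x) * ((1 : K) ⊗ₜ[k] y) := by
        rw [Algebra.TensorProduct.tmul_mul_tmul, mul_one]
      have e2 : (x * y) ⊗ₜ[k] (1 : K) = (x ⊗ₜ[k] (1 : K)) * (y ⊗ₜ[k] (1 : K)) := by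
        rw [Algebra.TensorProduct.tmul_mul_tmul, mul_one]
      rw [e1, e2]
      ring
    rw [h]
    exact Ideal.add_mem _ (Ideal.mul_mem_left _ _ hx) (Ideal.mul_mem_left _ _ hy)

/-- a polynomial of least degree -/
private theorem gl_pol (C : Coord k K) (f : K) :
    ∃ Q : Polynomial (Algebra.adjoin k (Set.range C.c)), Polynomial.aeval f Q = 0 ∧
      Polynomial.aeval f (Polynomial.derivative Q) ≠ 0 := by
  have hK : CharZero K := charZero_of_injective_algebraMap (algebraMap k K).injective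
  have hA : CharZero (Algebra.adjoin k (Set.range C.c)) :=
    charZero_of_injective_algebraMap (algebraMap k (Algebra.adjoin k (Set.range C.c))).injective
  have halg : Algebra.IsAlgebraic (Algebra.adjoin k (Set.range C.c)) K := C.basis.isAlgebraic
  obtain ⟨Q0, hQ0, hQ0f⟩ := halg.isAlgebraic f
  have key : ∀ n : ℕ, ∀ Q : Polynomial (Algebra.adjoin k (Set.range C.c)), Q.natDegree ≤ n → Q ≠ 0 →
      Polynomial.aeval f Q = 0 →
      ∃ Q : Polynomial (Algebra.adjoin k (Set.range C.c)), Polynomial.aeval f Q = 0 ∧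
        Polynomial.aeval f (Polynomial.derivative Q) ≠ 0 := by
    intro n
    induction n with
    | zero =>
      intro Q hd hQ hf
      exfalso
      rw [Polynomial.eq_C_of_natDegree_le_zero hd, Polynomial.aeval_C] at hf
      have h1 : Q.coeff 0 = 0 := Subtype.ext hf
      apply hQ
      rw [Polynomial.eq_C_of_natDegree_le_zero hd, h1, map_zero]
    | succ n ih =>
      intro Q hd hQ hf
      by_cases h1 : Polynomial.aeval f (Polynomial.derivative Q) = 0
      · by_cases h2 : Polynomial.derivative Q = 0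
        · have h3 := Polynomial.derivative_eq_zero.1 h2
          exact ih Q (by omega) hQ hf
        · refine ih (Polynomial.derivative Q) ?_ h2 h1
          have h3 : Q.natDegree ≠ 0 := by
            intro h3
            apply h2
            rw [Polynomial.eq_C_of_natDegree_eq_zero h3, Polynomial.derivative_C]
          have h4 := Polynomial.natDegree_derivative_lt h3
          omega
      · exact ⟨Q, hf, h1⟩
  exact key _ Q0 le_rfl hQ0 hQ0f

private theorem gl_one (C : Coord k K) (f : K) :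
    ∃ s : K ⊗[k] K, s ∉ dI k K ∧ s * ((1 : K) ⊗ₜ[k] f - f ⊗ₜ[k] (1 : K)) ∈ Ideal.span (Set.range (tp C)) := by
  obtain ⟨Q, hQ, hQ'⟩ := gl_pol C f
  let J := Ideal.span (Set.range (tp C))
  let π : K ⊗[k] K →+* (K ⊗[k] K) ⧸ J := Ideal.Quotient.mk J
  let i1 : K →+* K ⊗[k] K := (Algebra.TensorProduct.includeLeft (R := k) (S := k) (A := K) (B := K)).toRingHom
  let i2 : K →+* K ⊗[k] K := (Algebra.TensorProduct.includeRight (R := k) (A := K) (B := K)).toRingHom
  have hi1 : ∀ a : K, i1 a = a ⊗ₜ[k] (1 : K) := fun _ => rfl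
  have hi2 : ∀ a : K, i2 a = (1 : K) ⊗ₜ[k] a := fun _ => rfl
  let α : Algebra.adjoin k (Set.range C.c) →+* (K ⊗[k] K) ⧸ J :=
    (π.comp i1).comp (algebraMap (Algebra.adjoin k (Set.range C.c)) K)
  have hα : α = (π.comp i2).comp (algebraMap (Algebra.adjoin k (Set.range C.c)) K) := by
    ext a
    change π (i1 (a : K)) = π (i2 (a : K))
    rw [eq_comm, ← sub_eq_zero, ← map_sub, hi1, hi2]
    exact Ideal.Quotient.eq_zero_iff_mem.2 (gl_sub C a.2)
  let P := Q.map α
  have h1 : P.eval (π (i1 f)) = 0 := by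
    have e : Polynomial.eval₂ ((π.comp i1).comp (algebraMap _ K)) ((π.comp i1) f) Q =
      (π.comp i1) (Polynomial.eval₂ (algebraMap _ K) f Q) := (Polynomial.hom_eval₂ _ _ _ _).symm
    rw [Polynomial.eval_map]
    refine Eq.trans e ?_
    rw [← Polynomial.aeval_def, hQ, map_zero]
  have h2 : P.eval (π (i2 f)) = 0 := by
    have e : Polynomial.eval₂ ((π.comp i2).comp (algebraMap _ K)) ((π.comp i2) f) Q =
      (π.comp i2) (Polynomial.eval₂ (algebraMap _ K) f Q) := (Polynomial.hom_eval₂ _ _ _ _).symm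
    rw [Polynomial.eval_map, hα]
    refine Eq.trans e ?_
    rw [← Polynomial.aeval_def, hQ, map_zero]
  have h3 : P.derivative.eval (π (i1 f)) = π (i1 (Polynomial.aeval f (Polynomial.derivative Q))) := by
    have e : Polynomial.eval₂ ((π.comp i1).comp (algebraMap _ K)) ((π.comp i1) f) (Polynomial.derivative Q) =
      (π.comp i1) (Polynomial.eval₂ (algebraMap _ K) f (Polynomial.derivative Q)) :=
      (Polynomial.hom_eval₂ _ _ _ _).symm
    rw [Polynomial.derivative_map, Polynomial.eval_map]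
    exact e
  obtain ⟨r, hr⟩ := Polynomial.binomExpansion P (π (i1 f)) (π (i2 f) - π (i1 f))
  rw [add_sub_cancel, h2, h1, h3] at hr
  obtain ⟨r0, rfl⟩ := Ideal.Quotient.mk_surjective r
  refine ⟨i1 (Polynomial.aeval f (Polynomial.derivative Q)) + r0 * (i2 f - i1 f), ?_, ?_⟩
  · rw [mem_dI, map_add, map_mul, map_sub, hi1, hi1, hi2, ev_tmul, ev_tmul, ev_tmul]
    simpa using hQ'
  · rw [← Ideal.Quotient.eq_zero_iff_mem]
    change π ((i1 (Polynomial.aeval f (Polynomial.derivative Q)) + r0 * (i2 f - i1 f)) * (i2 f - i1 f)) = 0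
    rw [map_mul, map_add, map_mul, map_sub]
    have hr' : (0 : (K ⊗[k] K) ⧸ J) = 0 + π (i1 (Polynomial.aeval f (Polynomial.derivative Q))) * (π (i2 f) - π (i1 f))
      + π r0 * (π (i2 f) - π (i1 f)) ^ 2 := hr
    rw [zero_add] at hr'
    rw [hr']
    ring

theorem gen_loc [Algebra.EssFiniteType k K] (C : Coord k K) {g : K ⊗[k] K} (hg : g ∈ dI k K) :
    ∃ s : K ⊗[k] K, s ∉ dI k K ∧ s * g ∈ Ideal.span (Set.range (tp C)) := by
  have hP : (dI k K).IsPrime := inferInstance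
  have h1 : (1 : K ⊗[k] K) ∉ dI k K := fun h => hP.ne_top ((Ideal.eq_top_iff_one _).2 h)
  rw [dI_eq_span] at hg
  refine Submodule.span_induction (p := fun g _ => ∃ s : K ⊗[k] K, s ∉ dI k K ∧
    s * g ∈ Ideal.span (Set.range (tp C))) ?_ ?_ ?_ ?_ hg
  · rintro _ ⟨f, rfl⟩
    exact gl_one C f
  · exact ⟨1, h1, by rw [mul_zero]; exact Ideal.zero_mem _⟩
  · rintro x y _ _ ⟨s, hs, hsx⟩ ⟨t, ht, hty⟩
    refine ⟨s * t, fun h => (hP.mem_or_mem h).elim hs ht, ?_⟩
    have e : s * t * (x + y) = t * (s * x) + s * (t * y) := by ring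
    rw [e]
    exact Ideal.add_mem _ (Ideal.mul_mem_left _ _ hsx) (Ideal.mul_mem_left _ _ hty)
  · rintro a x _ ⟨s, hs, hsx⟩
    refine ⟨s, hs, ?_⟩
    have e : s * (a • x) = a * (s * x) := by
      rw [smul_eq_mul]
      ring
    rw [e]
    exact Ideal.mul_mem_left _ _ hsx

end Pool.Agent.H83.TQ
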