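import Pool.Agent.H83.TQ.Tan
import Pool.Agent.H24.TU.HOne

/-!
# [H83 TQ Hb] THEOREM Q (MP_e49dc9_ag), chapter (4): LEMMA HB, `h_1 ≤ e C(d+2, 2)`

`P` a prime ideal with `VIdeal S e ≤ P < dI`, `d` the maximal order of the elements of `M_1` at the diagonal.
PROOF.  As `h1_le` (TU/HOne.lean, copy it), with `i₀` of `tang` instead of `2` and with `hone_key` replaced by:
KEY: let `f ∈ M_1`, all coefficients of `tay C f` of degree `< r` vanish, `e ≤ r`, and `coeff a (tay C f) = 0` for all `a` of degree `r` with `a i₀ < e`.  Then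
`coeff a (tay C f) = 0` for all `a` of degree `r`.  PROOF of KEY: (i) for every `b` of degree `r - e`: `f' :=` the result of applying the coefficient
derivations `dX (C.d i)` (`b i` times) to `f` is in `M_1` (`M_dX`), its coefficients of degree `< e` vanish and for `|c| = e`: `coeff c (tay f') = μ * coeff (b + c) (tay f)`, where `μ ≠ 0`
is a number (`± ∏ (b_i + c_i)! / c_i!`; by `tay_dX`, induction on `|b|`; state it as: for all `b` and `f` with all coefficients of degree `< |b| + e` zero there are `f' ∈ M_1` of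
order `≥ e` and `μ : (Fin 3 →₀ ℕ) → K`, all `μ c ≠ 0` natural numbers up to sign, with `coeff c (tay f') = μ c * coeff (b + c) (tay f)` for `|c| = e`).  So `f' ∈ VIdeal S e ≤ P` (`ordGE_iff`), and `tang`
(`n = e`): `sum_(|c| = e) φ(μ c) φ(coeff (b + c) (tay f)) ∏ u_i^(c i) = 0`.
(ii) induction on `a i₀`: suppose `coeff a' (tay f) = 0` for all `a'` of degree `r` with `a' i₀ < a i₀`, and `e ≤ a i₀` (the case `a i₀ < e` is the hypothesis).  `b := a - single i₀ e`.  In the sum of (i) all
terms with `c ≠ single i₀ e` vanish: `c i₀ < e`, so `(b + c) i₀ < a i₀`.  The term `c = single i₀ e` is `φ(μ c) φ(coeff a (tay f)) * 1`, so `coeff a (tay f) = 0`.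
COUNTING: the map `M_1 → K ^ E`, `E = {a : |a| ≤ d, a i₀ < e}`, is injective (KEY for `r = 0, 1, .., d`; for `r < e` all `a` of degree `r` have `a i₀ ≤ r < e`), and `card E ≤ e C(d+2,2)` as in
`h1_le` (the two other coordinates have sum `≤ d`; e.g. the indices `i₀ + 1`, `i₀ + 2` in `Fin 3`).
-/

set_option autoImplicit false

open scoped TensorProduct

namespace Pool.Agent.H83.TQ

open Pool.Agent.H24.TU

universe u

variable {k K : Type u} [Field k] [CharZero k] [Field K] [Algebra k K]

private theorem hb_deg (b : Fin 3 →₀ ℕ) (i : Fin 3) (n : ℕ) :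
    (b + Finsupp.single i n).degree = b.degree + n := by
  rw [map_add]
  simp only [Finsupp.degree_single]

/-- the coefficient derivations -/
private theorem hb_der (C : Coord k K) (S : GSys k K) {e : ℕ} :
    ∀ n : ℕ, ∀ b : Fin 3 →₀ ℕ, b.degree = n → ∀ f ∈ S.M K 1,
      (∀ c : Fin 3 →₀ ℕ, c.degree < n + e → MvPowerSeries.coeff c (tay C f) = 0) →
      ∃ f' ∈ S.M K 1, (∀ c : Fin 3 →₀ ℕ, c.degree < e → MvPowerSeries.coeff c (tay C f') = 0) ∧
        ∃ μ : (Fin 3 →₀ ℕ) → K, (∀ c, μ c ≠ 0) ∧ ∀ c : Fin 3 →₀ ℕ, c.degree = e →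
          MvPowerSeries.coeff c (tay C f') = μ c * MvPowerSeries.coeff (b + c) (tay C f) := by
  have hch : CharZero K := charZero_of_injective_algebraMap (algebraMap k K).injective
  intro n
  induction n with
  | zero =>
    intro b hb f hf hc
    have hb0 : b = 0 := by rwa [Finsupp.degree_eq_zero_iff] at hb
    refine ⟨f, hf, fun c hcd => hc c (by omega), fun _ => 1, fun _ => one_ne_zero, fun c _ => ?_⟩
    rw [hb0, zero_add, one_mul]
  | succ n ih =>
    intro b hb f hf hc
    obtain ⟨i, hi⟩ : ∃ i, b i ≠ 0 := by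
      by_contra hcon
      push Not at hcon
      have h0 : b = 0 := by
        ext i
        exact hcon i
      rw [h0, map_zero] at hb
      omega
    obtain ⟨b', hb'⟩ : ∃ b', b = b' + Finsupp.single i 1 := by
      refine ⟨b - Finsupp.single i 1, ?_⟩
      rw [tsub_add_cancel_of_le]
      rw [Finsupp.single_le_iff]
      omega
    have hbd : b'.degree = n := by
      rw [hb', hb_deg] at hb
      omega
    obtain ⟨f', hf', h1, μ, hμ, h2⟩ := ih b' hbd (dX K (C.d i) f) (M_dX S hf (C.d i)) (by
      intro c hcd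
      rw [tay_dX, hc c (by omega), map_zero, hc (c + Finsupp.single i 1) (by
        rw [hb_deg]; omega), mul_zero, sub_zero])
    refine ⟨f', hf', h1, fun c => -(μ c * (((b' + c) i : ℕ) + 1 : K)), fun c => ?_, fun c hcd => ?_⟩
    · exact neg_ne_zero.2 (mul_ne_zero (hμ c) (Nat.cast_add_one_ne_zero _))
    · have h3 : b + c = b' + c + Finsupp.single i 1 := by
        rw [hb']
        abel
      have h4 : (b' + c).degree = n + e := by
        rw [map_add, hbd, hcd]
      rw [h2 c hcd, tay_dX, hc (b' + c) (by omega), map_zero, zero_sub, h3]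
      ring

/-- a monomial of degree `r` with nonzero coefficient has exponent less than `e` at `i₀` -/
private theorem hb_key (C : Coord k K) (S : GSys k K) {e : ℕ} {P : Ideal (K ⊗[k] K)} (hV : VIdeal S e ≤ P)
    {Om : Type u} [Field Om] (φ : K →+* Om) (u : Fin 3 → Om) (i₀ : Fin 3) (hu : u i₀ = 1)
    (ht : ∀ (n : ℕ), ∀ f ∈ P, OrdGE (dI k K) n f →
        ∑ a ∈ (Finset.univ : Finset (Fin 3)).finsuppAntidiag n,
          φ (MvPowerSeries.coeff a (tay C f)) * ∏ i, u i ^ a i = 0)
    {f : K ⊗[k] K} (hf : f ∈ S.M K 1) {r : ℕ}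
    (hc : ∀ c : Fin 3 →₀ ℕ, c.degree < r → MvPowerSeries.coeff c (tay C f) = 0)
    (hr : ∀ c : Fin 3 →₀ ℕ, c.degree = r → c i₀ < e → MvPowerSeries.coeff c (tay C f) = 0) :
    ∀ n : ℕ, ∀ a : Fin 3 →₀ ℕ, a.degree = r → a i₀ = n → MvPowerSeries.coeff a (tay C f) = 0 := by
  intro n
  induction n using Nat.strong_induction_on with
  | _ n ih =>
    intro a ha han
    by_cases hne : n < e
    · exact hr a ha (by omega)
    obtain ⟨b, hb⟩ : ∃ b, a = b + Finsupp.single i₀ e := by
      refine ⟨a - Finsupp.single i₀ e, ?_⟩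
      rw [tsub_add_cancel_of_le]
      rw [Finsupp.single_le_iff]
      omega
    have hbd : b.degree + e = r := by
      have h4 : a.degree = b.degree + e := by rw [hb, hb_deg]
      omega
    obtain ⟨f', hf', h1, μ, hμ, h2⟩ := hb_der C S (e := e) b.degree b rfl f hf (fun c hcd => hc c (by omega))
    have hord : OrdGE (dI k K) e f' := by
      rw [ordGE_iff C]
      exact h1
    have hfP : f' ∈ P := hV (Ideal.subset_span ⟨hf', hord⟩)
    have h3 := ht e f' hfP hord
    have hmem : Finsupp.single i₀ e ∈ (Finset.univ : Finset (Fin 3)).finsuppAntidiag e := by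
      rw [Finset.mem_finsuppAntidiag]
      refine ⟨?_, Finset.subset_univ _⟩
      rw [← Finsupp.degree_eq_sum, Finsupp.degree_single]
    rw [Finset.sum_eq_single (Finsupp.single i₀ e)] at h3
    · have h4 : ∏ i, u i ^ (Finsupp.single i₀ e : Fin 3 →₀ ℕ) i = 1 := by
        refine Finset.prod_eq_one fun i _ => ?_
        by_cases h5 : i = i₀
        · rw [h5, hu, one_pow]
        · rw [Finsupp.single_eq_of_ne h5, pow_zero]
      rw [h4, mul_one, h2 _ (Finsupp.degree_single _ _), ← hb] at h3
      have h5 := φ.injective (h3.trans (map_zero φ).symm)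
      rcases mul_eq_zero.1 h5 with h6 | h6
      · exact absurd h6 (hμ _)
      · exact h6
    · intro c hcm hcne
      rw [Finset.mem_finsuppAntidiag, ← Finsupp.degree_eq_sum] at hcm
      have hcd : c.degree = e := hcm.1
      have hci : c i₀ < e := by
        have h5 : c i₀ ≤ e := by
          rw [← hcd, Finsupp.degree_eq_sum]
          exact Finset.single_le_sum (fun i _ => Nat.zero_le _) (Finset.mem_univ i₀)
        rcases Nat.lt_or_eq_of_le h5 with h6 | h6
        · exact h6
        · exfalso
          apply hcne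
          rw [Finsupp.degree_eq_sum] at hcd
          have h7 : ∀ i, i ≠ i₀ → c i = 0 := by
            intro i hi
            have h8 := Finset.add_sum_erase Finset.univ c (Finset.mem_univ i₀)
            have h9 : ∑ j ∈ Finset.univ.erase i₀, c j = 0 := by omega
            rw [Finset.sum_eq_zero_iff] at h9
            exact h9 i (Finset.mem_erase.2 ⟨hi, Finset.mem_univ i⟩)
          ext i
          by_cases hi : i = i₀
          · rw [hi, h6, Finsupp.single_eq_same]
          · rw [h7 i hi, Finsupp.single_eq_of_ne hi]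
      have h5 : (b + c) i₀ < n := by
        have h6 : a i₀ = b i₀ + e := by
          rw [hb, Finsupp.add_apply, Finsupp.single_eq_same]
        rw [Finsupp.add_apply]
        omega
      have h6 : (b + c).degree = r := by
        rw [map_add]
        omega
      rw [h2 c hcd, ih _ h5 (b + c) h6 rfl, mul_zero, map_zero, zero_mul]
    · intro hcon
      exact absurd hmem hcon

private theorem hb_card (d : ℕ) :
    ((Finset.range (d + 1)).biUnion fun i => Finset.HasAntidiagonal.antidiagonal i).card ≤ (d + 2).choose 2 := by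
  refine Finset.card_biUnion_le.trans (le_of_eq ?_)
  induction d with
  | zero => rfl
  | succ d ih =>
    rw [Finset.sum_range_succ, ih, Finset.Nat.card_antidiagonal]
    have h1 := Nat.choose_succ_succ (d + 2) 1
    rw [Nat.choose_one_right] at h1
    show (d + 2).choose 2 + (d + 1 + 1) = (d + 2 + 1).choose (1 + 1)
    rw [h1]
    show (d + 2).choose 2 + (d + 1 + 1) = d + 2 + (d + 2).choose 2
    omega

private theorem hb_x (i₀ : Fin 3) (a : Fin 3 →₀ ℕ) :
    Finsupp.single (i₀ + 1) (a (i₀ + 1)) + Finsupp.single (i₀ + 2) (a (i₀ + 2)) + Finsupp.single i₀ (a i₀) = a ∧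
      a.degree = a (i₀ + 1) + a (i₀ + 2) + a i₀ := by
  rw [Finsupp.degree_eq_sum, Fin.sum_univ_three]
  constructor
  · ext i
    fin_cases i₀ <;> fin_cases i <;> simp
  · fin_cases i₀
    · show a 0 + a 1 + a 2 = a 1 + a 2 + a 0
      omega
    · show a 0 + a 1 + a 2 = a 2 + a 0 + a 1
      omega
    · show a 0 + a 1 + a 2 = a 0 + a 1 + a 2
      omega

theorem hb [Algebra.EssFiniteType k K] (C : Coord k K) (S : GSys k K) {e d : ℕ} {P : Ideal (K ⊗[k] K)}
    (hP : P.IsPrime) (hPI : P ≤ dI k K) (hne : P ≠ dI k K) (hV : VIdeal S e ≤ P)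
    (hd : ∀ f ∈ S.M K 1, OrdGE (dI k K) (d + 1) f → f = 0) :
    Module.finrank k (S.L 1) ≤ e * (d + 2).choose 2 := by
  have hch : CharZero K := charZero_of_injective_algebraMap (algebraMap k K).injective
  obtain ⟨Om, hOm, φ, u, i₀, hu, ht⟩ := tang C hP hPI hne
  obtain ⟨T, hT⟩ : ∃ T, T = (Finset.range (d + 1)).biUnion fun i => Finset.HasAntidiagonal.antidiagonal i :=
    ⟨_, rfl⟩
  obtain ⟨F, hF⟩ : ∃ F, F = Finset.range e ×ˢ T := ⟨_, rfl⟩
  obtain ⟨x, hx⟩ : ∃ x : ℕ × ℕ × ℕ → (Fin 3 →₀ ℕ), ∀ p, x p = Finsupp.single (i₀ + 1) p.2.1 +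
      Finsupp.single (i₀ + 2) p.2.2 + Finsupp.single i₀ p.1 := ⟨_, fun _ => rfl⟩
  let Φ : ↥(S.M K 1) →ₗ[K] (↥F → K) :=
    { toFun := fun f p => MvPowerSeries.coeff (x p.1) (tay C f.1)
      map_add' := by
        intro f g
        funext p
        show MvPowerSeries.coeff (x p.1) (tay C (f.1 + g.1)) = _
        rw [tay_add, map_add]
        rfl
      map_smul' := by
        intro r f
        funext p
        show MvPowerSeries.coeff (x p.1) (tay C (r • f.1)) = _
        rw [tay_smul, map_smul]
        rfl }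
  have hinj : Function.Injective Φ := by
    rw [injective_iff_map_eq_zero]
    intro f hf
    have hcoef : ∀ a : Fin 3 →₀ ℕ, a.degree ≤ d → a i₀ < e →
        MvPowerSeries.coeff a (tay C f.1) = 0 := by
      intro a had ha2
      obtain ⟨hxa, hdeg⟩ := hb_x i₀ a
      have hmem : (a i₀, a (i₀ + 1), a (i₀ + 2)) ∈ F := by
        rw [hF, Finset.mem_product, hT]
        refine ⟨Finset.mem_range.2 ha2, Finset.mem_biUnion.2 ⟨a (i₀ + 1) + a (i₀ + 2), ?_, ?_⟩⟩
        · rw [Finset.mem_range]
          omega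
        · exact Finset.HasAntidiagonal.mem_antidiagonal.2 rfl
      have h1 := congrFun hf ⟨(a i₀, a (i₀ + 1), a (i₀ + 2)), hmem⟩
      have h2 : x (a i₀, a (i₀ + 1), a (i₀ + 2)) = a := by
        rw [hx]
        exact hxa
      have h3 : MvPowerSeries.coeff (x (a i₀, a (i₀ + 1), a (i₀ + 2))) (tay C f.1) = 0 := h1
      rwa [h2] at h3
    have hall : ∀ r : ℕ, r ≤ d + 1 → ∀ a : Fin 3 →₀ ℕ, a.degree < r →
        MvPowerSeries.coeff a (tay C f.1) = 0 := by
      intro r
      induction r with
      | zero =>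
        intro _ a ha
        omega
      | succ r ih =>
        intro hr a ha
        by_cases har : a.degree < r
        · exact ih (by omega) a har
        exact hb_key C S hV φ u i₀ hu ht f.2 (r := r) (fun c hc => ih (by omega) c hc)
          (fun c hc hce => hcoef c (by omega) hce) (a i₀) a (by omega) rfl
    have h0 : f.1 = 0 := by
      apply hd f.1 f.2
      rw [ordGE_iff C]
      intro a ha
      exact hall (d + 1) le_rfl a ha
    exact Subtype.ext h0
  have hfin : Module.Finite K (S.M K 1) := M_finite S 1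
  have h1 := LinearMap.finrank_le_finrank_of_injective hinj
  rw [finrank_M S 1, Module.finrank_fintype_fun_eq_card, Fintype.card_coe, hF, Finset.card_product,
    Finset.card_range] at h1
  refine h1.trans (Nat.mul_le_mul_left e ?_)
  rw [hT]
  exact hb_card d

end Pool.Agent.H83.TQ
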