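import Pool.Agent.H83.TQ.Gen
import Pool.Agent.H24.TU.TayRing

/-!
# [H83 TQ Pow] THEOREM Q (MP_e49dc9_ag), chapter (4): elements of order `n` at the diagonal

`J := (tp C 0, tp C 1, tp C 2)`.  `ord_pow`: if `f` has order at least `n` at the diagonal (`OrdGE (dI k K) n f`) then some multiple `s f`, `s` not in `dI`, is
`sum_a p_a t^a` with a homogeneous polynomial `p` of degree `n` with coefficients in `K (x) K`; its coefficients have the values `ev p_a = (ev s) * coeff a (tay C f)`.
PROOF.  Induction on `n` for the first part (without the values).  `n = 0`: `s = 1`, `p = C f`.  Step: `OrdGE n f` gives `s f = eval t p`.  `tay` is a ring homomorphism (`tay_add`,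
`tay_mul`, `tay_one`; `tay_var`: `tay (tp C i) = X i`), so `tay (s f) = sum_a tay(p_a) X^a` and for `|a| = n` its coefficient at `a` is the constant coefficient of `tay(p_a)`, that
is `ev p_a` (`coeff_tay` at `0`): this is the computation (V) below.  `OrdGE (n + 1) f` and `ordGE_iff` (TU/TayOrd) give `coeff a (tay (s f)) = 0`
(`OrdGE_mul_left`), so `ev p_a = 0`, `p_a ∈ dI` (`mem_dI`), `gen_loc`: `s_a p_a ∈ J`.  With `s' := ∏ s_a` (over `p.support`; `dI` is prime) `s' s f ∈ J ^ (n + 1)`:
`Ideal.mem_span_pow_iff_exists_isHomogeneous` (Mathlib, in both directions).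
(V): for `s f = eval (tp C) p`, `p` homogeneous of degree `n`, `|a| = n`: `coeff a (tay (s f)) = ev (p.coeff a)`; and `coeff a (tay (s f)) = ev s * coeff a (tay f)`, because
`tay (s f) = tay s * tay f` and the coefficients of `tay f` of degree `< n` vanish (`ordGE_iff`): `MvPowerSeries.coeff_mul`.
-/

set_option autoImplicit false

open scoped TensorProduct

namespace Pool.Agent.H83.TQ

open Pool.Agent.H24.TU

universe u

variable {k K : Type u} [Field k] [CharZero k] [Field K] [Algebra k K]

private theorem dI_prime : (dI k K).IsPrime := inferInstance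

private theorem one_notMem : (1 : K ⊗[k] K) ∉ dI k K :=
  fun h => (dI_prime (k := k) (K := K)).ne_top ((Ideal.eq_top_iff_one _).2 h)

private theorem tay0 (C : Coord k K) : tay C (0 : K ⊗[k] K) = 0 := by
  have h := tay_smul C (0 : K) (0 : K ⊗[k] K)
  rw [zero_smul, zero_smul] at h
  exact h

private noncomputable def tayH (C : Coord k K) : (K ⊗[k] K) →+* MvPowerSeries (Fin 3) K where
  toFun := tay C
  map_one' := tay_one C
  map_mul' := tay_mul C
  map_zero' := tay0 C
  map_add' := tay_add C

private theorem coeff0 (C : Coord k K) (g : K ⊗[k] K) : MvPowerSeries.coeff 0 (tay C g) = ev k K g := by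
  have h1 : ∀ q : K ⊗[k] K, Dp C 0 q = q := fun q => rfl
  have h2 : fac3 0 = 1 := rfl
  rw [coeff_tay, h1, h2]
  simp

private theorem prod_X (a : Fin 3 →₀ ℕ) :
    ∏ i, (MvPowerSeries.X i : MvPowerSeries (Fin 3) K) ^ a i = MvPowerSeries.monomial a 1 := by
  have h : ((∏ i, (MvPolynomial.X i : MvPolynomial (Fin 3) K) ^ a i : MvPolynomial (Fin 3) K) :
      MvPowerSeries (Fin 3) K) = ((MvPolynomial.monomial a (1 : K) : MvPolynomial (Fin 3) K) :
      MvPowerSeries (Fin 3) K) := by
    congr 1
    rw [MvPolynomial.monomial_eq, MvPolynomial.C_1, one_mul, Finsupp.prod_fintype]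
    intro i
    exact pow_zero _
  rw [MvPolynomial.coe_monomial] at h
  rw [← h]
  change _ = MvPolynomial.coeToMvPowerSeries.ringHom (∏ i, (MvPolynomial.X i : MvPolynomial (Fin 3) K) ^ a i)
  rw [map_prod]
  refine Finset.prod_congr rfl fun i _ => ?_
  rw [map_pow]
  congr 1
  exact (MvPolynomial.coe_X i).symm

private theorem deg_split {a b : Fin 3 →₀ ℕ} (hab : b ≤ a) (hd : a.degree = b.degree) : b = a := by
  have h1 : a = b + (a - b) := (add_tsub_cancel_of_le hab).symm
  have h2 : (a - b).degree = 0 := by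
    have h3 := congrArg Finsupp.degree h1
    rw [map_add] at h3
    omega
  rw [Finsupp.degree_eq_zero_iff] at h2
  rw [h2, add_zero] at h1
  exact h1.symm

/-- the values of the coefficients -/
private theorem vals (C : Coord k K) {n : ℕ} {f s : K ⊗[k] K} (hf : OrdGE (dI k K) n f)
    {p : MvPolynomial (Fin 3) (K ⊗[k] K)} (hp : p.IsHomogeneous n) (he : s * f = MvPolynomial.eval (tp C) p)
    {a : Fin 3 →₀ ℕ} (ha : a.degree = n) :
    ev k K (p.coeff a) = ev k K s * MvPowerSeries.coeff a (tay C f) := by
  classical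
  have h1 : MvPowerSeries.coeff a (tay C (s * f)) = ev k K s * MvPowerSeries.coeff a (tay C f) := by
    rw [tay_mul, MvPowerSeries.coeff_mul]
    rw [Finset.sum_eq_single (0, a)]
    · rw [coeff0]
    · intro b hb hne
      have hb' := Finset.HasAntidiagonal.mem_antidiagonal.1 hb
      have hlt : b.2.degree < n := by
        have h3 := congrArg Finsupp.degree hb'
        rw [map_add] at h3
        rcases Nat.eq_zero_or_pos b.1.degree with h0 | h0
        · exfalso
          rw [Finsupp.degree_eq_zero_iff] at h0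
          apply hne
          refine Prod.ext h0 ?_
          rw [h0, zero_add] at hb'
          exact hb'
        · omega
      rw [(ordGE_iff C n f).1 hf b.2 hlt, mul_zero]
    · intro h
      exact absurd (Finset.HasAntidiagonal.mem_antidiagonal.2 (by simp)) h
  have h2 : MvPowerSeries.coeff a (tay C (s * f)) = ev k K (p.coeff a) := by
    have e : tayH C (MvPolynomial.eval (tp C) p) =
        ∑ d ∈ p.support, tay C (p.coeff d) * MvPowerSeries.monomial d 1 := by
      rw [MvPolynomial.eval_eq', map_sum]
      refine Finset.sum_congr rfl fun d _ => ?_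
      rw [map_mul, map_prod, ← prod_X]
      congr 1
      refine Finset.prod_congr rfl fun i _ => ?_
      rw [map_pow]
      congr 1
      exact tay_var C i
    have e' : tay C (s * f) = ∑ d ∈ p.support, tay C (p.coeff d) * MvPowerSeries.monomial d 1 := by
      rw [he]
      exact e
    rw [e', map_sum]
    rw [Finset.sum_eq_single a]
    · rw [MvPowerSeries.coeff_mul_monomial, if_pos le_rfl, mul_one, tsub_self, coeff0]
    · intro d hd hda
      rw [MvPowerSeries.coeff_mul_monomial, if_neg]
      intro hle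
      have hdn : d.degree = n := by
        have := hp (MvPolynomial.mem_support_iff.1 hd)
        rw [Finsupp.degree_eq_weight_one]
        exact this
      exact hda (deg_split hle (by rw [ha, hdn]))
    · intro h
      rw [MvPolynomial.notMem_support_iff.1 h, tay0, zero_mul, map_zero]
  rw [← h2, h1]

private theorem ord_mem (C : Coord k K) [Algebra.EssFiniteType k K] (n : ℕ) {f : K ⊗[k] K}
    (hf : OrdGE (dI k K) n f) :
    ∃ s : K ⊗[k] K, s ∉ dI k K ∧ s * f ∈ Ideal.span (Set.range (tp C)) ^ n := by
  classical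
  induction n with
  | zero => exact ⟨1, one_notMem, by rw [pow_zero, Ideal.one_eq_top]; exact Submodule.mem_top⟩
  | succ n ih =>
    obtain ⟨s, hs, hsf⟩ := ih (OrdGE_mono (Nat.le_succ n) hf)
    obtain ⟨p, hp, hpe⟩ := (Ideal.mem_span_pow_iff_exists_isHomogeneous (tp C) (s * f)).1 hsf
    have hdeg : ∀ a ∈ p.support, a.degree = n := by
      intro a ha
      have := hp (MvPolynomial.mem_support_iff.1 ha)
      rw [Finsupp.degree_eq_weight_one]
      exact this
    have hz : ∀ a ∈ p.support, ∃ t : K ⊗[k] K, t ∉ dI k K ∧ t * p.coeff a ∈ Ideal.span (Set.range (tp C)) := by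
      intro a ha
      apply gen_loc C
      rw [mem_dI, vals C (OrdGE_mono (Nat.le_succ n) hf) hp hpe.symm (hdeg a ha),
        (ordGE_iff C (n + 1) f).1 hf a (by rw [hdeg a ha]; exact Nat.lt_succ_self n), mul_zero]
    choose! t ht htp using hz
    refine ⟨(∏ a ∈ p.support, t a) * s, fun h => ?_, ?_⟩
    · rcases dI_prime.mem_or_mem h with h1 | h1
      · obtain ⟨a, ha, hta⟩ := (dI_prime (k := k) (K := K)).prod_mem_iff.1 h1
        exact ht a ha hta
      · exact hs h1
    · rw [mul_assoc, ← hpe, MvPolynomial.eval_eq', Finset.mul_sum]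
      refine Ideal.sum_mem _ fun a ha => ?_
      have e : (∏ b ∈ p.support, t b) * (p.coeff a * ∏ i, tp C i ^ a i) =
          (∏ b ∈ p.support.erase a, t b) * ((∏ i, tp C i ^ a i) * (t a * p.coeff a)) := by
        rw [← Finset.mul_prod_erase _ _ ha]
        ring
      rw [e, pow_succ]
      refine Ideal.mul_mem_left _ _ (Ideal.mul_mem_mul ?_ (htp a ha))
      rw [Ideal.mem_span_pow_iff_exists_isHomogeneous]
      refine ⟨MvPolynomial.monomial a 1, MvPolynomial.isHomogeneous_monomial 1 (hdeg a ha), ?_⟩
      rw [MvPolynomial.eval_monomial, one_mul, Finsupp.prod_fintype]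
      intro i
      exact pow_zero _

theorem ord_pow [Algebra.EssFiniteType k K] (C : Coord k K) (n : ℕ) {f : K ⊗[k] K} (hf : OrdGE (dI k K) n f) :
    ∃ (s : K ⊗[k] K) (p : MvPolynomial (Fin 3) (K ⊗[k] K)), s ∉ dI k K ∧ p.IsHomogeneous n ∧
      s * f = MvPolynomial.eval (tp C) p ∧
      ∀ a : Fin 3 →₀ ℕ, a.degree = n → ev k K (p.coeff a) = ev k K s * MvPowerSeries.coeff a (tay C f) := by
  obtain ⟨s, hs, hsf⟩ := ord_mem C n hf
  obtain ⟨p, hp, hpe⟩ := (Ideal.mem_span_pow_iff_exists_isHomogeneous (tp C) (s * f)).1 hsf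
  exact ⟨s, p, hs, hp, hpe.symm, fun a ha => vals C hf hp hpe.symm ha⟩

end Pool.Agent.H83.TQ
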