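import Pool.Agent.H83.TQ.Pow

/-!
# [H83 TQ Tan] THEOREM Q (MP_e49dc9_ag), chapter (4): a tangent direction of a prime ideal `P < I`

`P` a prime ideal of `R = K (x)_k K` strictly contained in the diagonal ideal `I`.  There are a field `Om`, a homomorphism `φ : K → Om` and a vector `u ∈ Om ^ 3` with
`u i₀ = 1`, such that the form of degree `n` of the Taylor series of every `f ∈ P` of order `≥ n` vanishes at `u`.
PROOF.  `κ := P.ResidueField` (or the fraction field of `R / P`), `R_I := Localization.AtPrime (dI k K)`, `ψ₀ : R_I → κ` (elements outside `I` are not in `P`, so they are units in `κ`: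
`IsLocalization.lift`).  `IsLocalRing.exists_factor_valuationRing` (Mathlib.RingTheory.Valuation.LocalSubring): a valuation subring `A` of `κ` which contains the image of
`ψ₀`, and `R_I → A` is local.  So `ψ : R →+* A` with: `ψ g = 0 ↔ g ∈ P`, `ψ g` is a unit for `g ∉ I`, `ψ g ∈ m_A` for `g ∈ I`.
`Om := IsLocalRing.ResidueField A`, `φ a := residue (ψ (a (x) 1))`; `residue (ψ g) = φ (ev g)` for all `g`, since `g - (ev g) (x) 1 ∈ I`.
`τ i := ψ (tp C i)`: not all `0` (otherwise `gen_loc`: `g ∈ I`, `s g ∈ (tp)`: `ψ s * ψ g = 0`, `ψ g = 0`, `g ∈ P`, so `I ≤ P`).  `i₀` such that `τ i₀` divides all `τ i` (`ValuationRing.dvd_total`,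
three elements): `τ i = v i * τ i₀`, `v i₀ = 1`, `τ i₀ ≠ 0`; `u i := residue (v i)`.
`f ∈ P` of order `≥ n`: `ord_pow`: `s f = eval t p`, so `0 = ψ (s f) = sum_a ψ(p_a) ∏ τ_i^(a i) = (τ i₀)^n sum_a ψ(p_a) ∏ (v i)^(a i)` (`p` is homogeneous of degree `n`), so
`sum_a ψ(p_a) ∏ (v i)^(a i) = 0`, and residues: `sum_(|a| = n) φ(ev s) φ(coeff a (tay f)) ∏ u_i^(a i) = 0`, `φ(ev s) ≠ 0`.
(Sum over `p.support`, `⊆ {a | |a| = n}`; for the other `a` of degree `n` the coefficient `p_a` is `0`.)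
-/

set_option autoImplicit false

open scoped TensorProduct

namespace Pool.Agent.H83.TQ

open Pool.Agent.H24.TU

universe u

variable {k K : Type u} [Field k] [CharZero k] [Field K] [Algebra k K]

theorem tang [Algebra.EssFiniteType k K] (C : Coord k K) {P : Ideal (K ⊗[k] K)} (hP : P.IsPrime) (hPI : P ≤ dI k K)
    (hne : P ≠ dI k K) :
    ∃ (Om : Type u) (_ : Field Om) (φ : K →+* Om) (u : Fin 3 → Om) (i₀ : Fin 3), u i₀ = 1 ∧
      ∀ (n : ℕ), ∀ f ∈ P, OrdGE (dI k K) n f →
        ∑ a ∈ (Finset.univ : Finset (Fin 3)).finsuppAntidiag n,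
          φ (MvPowerSeries.coeff a (tay C f)) * ∏ i, u i ^ a i = 0 := by
  classical
  have hI : (dI k K).IsPrime := inferInstance
  let g0 : (K ⊗[k] K) →+* P.ResidueField := algebraMap _ _
  have hg0 : ∀ x, g0 x = 0 ↔ x ∈ P := fun x => Ideal.algebraMap_residueField_eq_zero
  have hu : ∀ y : (dI k K).primeCompl, IsUnit (g0 y) := by
    intro y
    rw [isUnit_iff_ne_zero]
    intro h
    exact y.2 (hPI ((hg0 _).1 h))
  let ψ0 : Localization.AtPrime (dI k K) →+* P.ResidueField := IsLocalization.lift hu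
  have hψ0 : ∀ x, ψ0 (algebraMap (K ⊗[k] K) (Localization.AtPrime (dI k K)) x) = g0 x :=
    fun x => IsLocalization.lift_eq hu x
  obtain ⟨A, hA, hloc⟩ := IsLocalRing.exists_factor_valuationRing ψ0
  let ψ1 : Localization.AtPrime (dI k K) →+* A := ψ0.codRestrict A.toSubring hA
  let ψ : (K ⊗[k] K) →+* A := ψ1.comp (algebraMap (K ⊗[k] K) (Localization.AtPrime (dI k K)))
  have hψ : ∀ x, ((ψ x : A) : P.ResidueField) = g0 x := fun x => hψ0 x
  have hz : ∀ x, ψ x = 0 ↔ x ∈ P := by
    intro x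
    rw [← hg0, ← hψ]
    constructor
    · intro h
      rw [h]
      rfl
    · intro h
      exact Subtype.ext h
  have hunit : ∀ x, x ∉ dI k K → IsUnit (ψ x) := by
    intro x hx
    have h1 : IsUnit (algebraMap (K ⊗[k] K) (Localization.AtPrime (dI k K)) x) :=
      IsLocalization.map_units _ (⟨x, hx⟩ : (dI k K).primeCompl)
    exact h1.map ψ1
  have hnon : ∀ x ∈ dI k K, ¬ IsUnit (ψ x) := by
    intro x hx h
    have h1 : IsUnit (algebraMap (K ⊗[k] K) (Localization.AtPrime (dI k K)) x) := hloc.map_nonunit _ h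
    exact ((IsLocalization.AtPrime.isUnit_to_map_iff (Localization.AtPrime (dI k K)) (dI k K) x).1 h1) hx
  let res : A →+* IsLocalRing.ResidueField A := IsLocalRing.residue A
  have hres : ∀ a : A, res a = 0 ↔ ¬ IsUnit a := by
    intro a
    rw [IsLocalRing.residue_eq_zero_iff, IsLocalRing.mem_maximalIdeal]
    exact Iff.rfl
  let i1 : K →+* K ⊗[k] K := (Algebra.TensorProduct.includeLeft (R := k) (S := k) (A := K) (B := K)).toRingHom
  let φ : K →+* IsLocalRing.ResidueField A := (res.comp ψ).comp i1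
  have hφ : ∀ g, res (ψ g) = φ (ev k K g) := by
    intro g
    change res (ψ g) = res (ψ (i1 (ev k K g)))
    rw [← sub_eq_zero, ← map_sub, ← map_sub, hres]
    apply hnon
    rw [mem_dI, map_sub]
    change ev k K g - ev k K ((ev k K g) ⊗ₜ[k] (1 : K)) = 0
    rw [ev_tmul, mul_one, sub_self]
  let τ : Fin 3 → A := fun i => ψ (tp C i)
  have hτ : ∃ i, τ i ≠ 0 := by
    by_contra hcon
    push Not at hcon
    obtain ⟨g, hgI, hgP⟩ : ∃ g, g ∈ dI k K ∧ g ∉ P := by
      by_contra hc
      push Not at hc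
      exact hne (le_antisymm hPI hc)
    obtain ⟨s, hs, hsg⟩ := gen_loc C hgI
    have h1 : Ideal.span (Set.range (tp C)) ≤ RingHom.ker ψ := by
      rw [Ideal.span_le]
      rintro _ ⟨i, rfl⟩
      exact hcon i
    have h2 : ψ (s * g) = 0 := h1 hsg
    rw [map_mul] at h2
    rcases mul_eq_zero.1 h2 with h3 | h3
    · exact (hunit s hs).ne_zero h3
    · exact hgP ((hz g).1 h3)
  obtain ⟨i₀, hi₀⟩ := Finite.exists_max (fun i : Fin 3 => A.valuation ((τ i : A) : P.ResidueField))
  have hdiv : ∀ i, ∃ v : A, v * τ i₀ = τ i := by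
    intro i
    obtain ⟨a, ha⟩ := (A.valuation_le_iff _ _).1 (hi₀ i)
    exact ⟨a, Subtype.ext ha⟩
  choose v hv using hdiv
  have hτ0 : τ i₀ ≠ 0 := by
    intro h
    obtain ⟨i, hi⟩ := hτ
    apply hi
    rw [← hv i, h, mul_zero]
  have hv0 : v i₀ = 1 := by
    have := hv i₀
    exact mul_right_cancel₀ hτ0 (by rw [this, one_mul])
  refine ⟨IsLocalRing.ResidueField A, inferInstance, φ, fun i => res (v i), i₀, by
    change res (v i₀) = 1
    rw [hv0, map_one], ?_⟩
  intro n f hfP hf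
  obtain ⟨s, p, hs, hp, he, hval⟩ := ord_pow C n hf
  have hdeg : ∀ a ∈ p.support, a.degree = n := by
    intro a ha
    have := hp (MvPolynomial.mem_support_iff.1 ha)
    rw [Finsupp.degree_eq_weight_one]
    exact this
  have h1 : ψ (MvPolynomial.eval (tp C) p) = 0 := by
    rw [← he, hz]
    exact P.mul_mem_left _ hfP
  have h2 : ψ (MvPolynomial.eval (tp C) p) = τ i₀ ^ n * ∑ d ∈ p.support, ψ (p.coeff d) * ∏ i, v i ^ d i := by
    rw [MvPolynomial.eval_eq', map_sum, Finset.mul_sum]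
    refine Finset.sum_congr rfl fun d hd => ?_
    rw [map_mul, map_prod]
    have e1 : ∏ i, ψ (tp C i ^ d i) = τ i₀ ^ n * ∏ i, v i ^ d i := by
      have e2 : ∀ i, ψ (tp C i ^ d i) = v i ^ d i * τ i₀ ^ d i := by
        intro i
        rw [map_pow, ← mul_pow, hv i]
      rw [Finset.prod_congr rfl fun i _ => e2 i, Finset.prod_mul_distrib, Finset.prod_pow_eq_pow_sum]
      have e3 : ∑ i, d i = n := by
        rw [← Finsupp.degree_eq_sum]
        exact hdeg d hd
      rw [e3, mul_comm]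
    rw [e1]
    ring
  have h3 : ∑ d ∈ p.support, ψ (p.coeff d) * ∏ i, v i ^ d i = 0 := by
    rw [h2] at h1
    exact (mul_eq_zero.1 h1).resolve_left (pow_ne_zero _ hτ0)
  have h4 := congrArg res h3
  rw [map_sum, map_zero] at h4
  have h5 : φ (ev k K s) ≠ 0 := by
    rw [← hφ]
    intro h
    exact (hres _).1 h (hunit s hs)
  apply (mul_eq_zero.1 (?_ : φ (ev k K s) * _ = 0)).resolve_left h5
  rw [Finset.mul_sum, ← h4]
  symm
  have hsub : p.support ⊆ (Finset.univ : Finset (Fin 3)).finsuppAntidiag n := by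
    intro d hd
    rw [Finset.mem_finsuppAntidiag]
    refine ⟨?_, Finset.subset_univ _⟩
    rw [← hdeg d hd, Finsupp.degree_eq_sum]
  rw [← Finset.sum_subset hsub]
  · refine Finset.sum_congr rfl fun d hd => ?_
    rw [← mul_assoc, ← map_mul, ← hval d (hdeg d hd), ← hφ, map_mul, map_prod]
    congr 1
  · intro a ha hna
    have hda : a.degree = n := by
      rw [Finsupp.degree_eq_sum]
      exact (Finset.mem_finsuppAntidiag.1 ha).1
    rw [← mul_assoc, ← map_mul, ← hval a hda, MvPolynomial.notMem_support_iff.1 hna, map_zero, map_zero, zero_mul]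

end Pool.Agent.H83.TQ
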