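import Pool.Agent.H83.TQ.Hb
import Pool.Agent.H24.TV.MainM

/-!
# THEOREM Q (MP_e49dc9_ag), chapter (4): THEOREM I for multiplicities up to a multiple of the square root of `h_1`

As `theoremI_M` (`H24/TV/MainM.lean`), with `e C(2e + 2m + 2, 2) < h_1` (by `hb`) instead of `C(2e + 2m + 3, 3) ≤ h_1`, and the bound
`(27 e w / h_1) n + C` for the growth on the fibres.
-/

set_option autoImplicit false

open scoped TensorProduct

namespace Pool.Agent.H83.TQ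

open Pool.Agent.H24.TU Pool.Agent.H24.TV

universe u

/-- The arithmetic of the degree bound. -/
theorem arith_b (dd h : ℕ → ℕ) (c j : ℕ) (e : ℝ) (he : 0 ≤ e) (hj : 1 ≤ j) (w : ℝ) (hw0 : 0 ≤ w)
    (hb : ∀ N n : ℕ, (j * N + 1).choose 2 * dd n ≤ h (N + c + n))
    (hw : ∀ᶠ n : ℕ in Filter.atTop, (h n : ℝ) ≤ w * (n : ℝ) ^ 3)
    (hwj : w ≤ 2 * e * (j : ℝ) ^ 2) :
    ∃ C : ℝ, ∀ n : ℕ, (dd n : ℝ) ≤ 27 * e * n + C := by
  obtain ⟨n₀, hn₀⟩ := Filter.eventually_atTop.1 hw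
  have hj' : (1 : ℝ) ≤ j := by exact_mod_cast hj
  have key : ∀ n : ℕ, n₀ ≤ n → 1 ≤ n →
      (dd n : ℝ) ≤ 27 * e * n + e * (27 * c + 9 * (c : ℝ) ^ 2 + (c : ℝ) ^ 3) := by
    intro n hn hn1
    have hn' : (1 : ℝ) ≤ n := by exact_mod_cast hn1
    have h1 := hb (2 * n) n
    have h2 := hn₀ (2 * n + c + n) (by omega)
    have hch : ((j * (2 * n) + 1).choose 2 : ℝ) = (2 * j * n + 1) * (2 * j * n) / 2 := by
      rw [Nat.choose_two_right]
      have hd : 2 ∣ (j * (2 * n) + 1) * (j * (2 * n) + 1 - 1) :=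
        (Nat.even_mul_pred_self (j * (2 * n) + 1)).two_dvd
      rw [Nat.cast_div hd (by norm_num), Nat.add_sub_cancel]
      push_cast
      ring
    have h3 : (((j * (2 * n) + 1).choose 2 : ℕ) : ℝ) * (dd n : ℝ) ≤
        w * ((2 * n + c + n : ℕ) : ℝ) ^ 3 := by
      refine le_trans ?_ h2
      exact_mod_cast h1
    rw [hch] at h3
    push_cast at h3
    have hdd : (0 : ℝ) ≤ dd n := Nat.cast_nonneg _
    have h4 : 2 * (j : ℝ) ^ 2 * n ^ 2 * dd n ≤ w * (3 * n + c) ^ 3 := by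
      have h5 : 2 * (j : ℝ) ^ 2 * n ^ 2 ≤ (2 * j * n + 1) * (2 * j * n) / 2 := by
        have : (0 : ℝ) ≤ j * n := by positivity
        nlinarith
      calc 2 * (j : ℝ) ^ 2 * n ^ 2 * dd n ≤ (2 * j * n + 1) * (2 * j * n) / 2 * dd n :=
            mul_le_mul_of_nonneg_right h5 hdd
        _ ≤ w * (2 * n + c + n) ^ 3 := h3
        _ = w * (3 * n + c) ^ 3 := by ring
    have h6 : w * (3 * n + c) ^ 3 ≤ 2 * e * (j : ℝ) ^ 2 * (3 * n + c) ^ 3 :=
      mul_le_mul_of_nonneg_right hwj (by positivity)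
    have hj2 : (0 : ℝ) < 2 * (j : ℝ) ^ 2 := by positivity
    have h7 : (n : ℝ) ^ 2 * dd n ≤ e * (3 * n + c) ^ 3 := by
      have : 2 * (j : ℝ) ^ 2 * ((n : ℝ) ^ 2 * dd n) ≤
          2 * (j : ℝ) ^ 2 * (e * (3 * n + c) ^ 3) := by
        calc 2 * (j : ℝ) ^ 2 * ((n : ℝ) ^ 2 * dd n) = 2 * (j : ℝ) ^ 2 * n ^ 2 * dd n := by ring
          _ ≤ w * (3 * n + c) ^ 3 := h4
          _ ≤ 2 * e * (j : ℝ) ^ 2 * (3 * n + c) ^ 3 := h6
          _ = 2 * (j : ℝ) ^ 2 * (e * (3 * n + c) ^ 3) := by ring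
      exact le_of_mul_le_mul_left this hj2
    have hn2 : (0 : ℝ) < (n : ℝ) ^ 2 := by positivity
    have h8 : e * (3 * n + c) ^ 3 ≤
        (n : ℝ) ^ 2 * (27 * e * n +
          e * (27 * c + 9 * (c : ℝ) ^ 2 + (c : ℝ) ^ 3)) := by
      have hc : (0 : ℝ) ≤ c := Nat.cast_nonneg _
      have e1 : (n : ℝ) ≤ n ^ 2 := by nlinarith
      have e2 : (1 : ℝ) ≤ n ^ 2 := by nlinarith
      have e3 : (3 * (n : ℝ) + c) ^ 3 ≤
          n ^ 2 * (27 * n + (27 * c + 9 * (c : ℝ) ^ 2 + (c : ℝ) ^ 3)) := by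
        have f1 : 9 * (c : ℝ) ^ 2 * n ≤ 9 * (c : ℝ) ^ 2 * n ^ 2 :=
          mul_le_mul_of_nonneg_left e1 (by positivity)
        have f2 : (c : ℝ) ^ 3 * 1 ≤ (c : ℝ) ^ 3 * n ^ 2 :=
          mul_le_mul_of_nonneg_left e2 (by positivity)
        nlinarith
      calc e * (3 * n + c) ^ 3 ≤
            e * (n ^ 2 * (27 * n + (27 * c + 9 * (c : ℝ) ^ 2 + (c : ℝ) ^ 3))) :=
            mul_le_mul_of_nonneg_left e3 he
        _ = _ := by ring
    exact le_of_mul_le_mul_left (h7.trans h8) hn2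
  refine ⟨e * (27 * c + 9 * (c : ℝ) ^ 2 + (c : ℝ) ^ 3) +
    ∑ m ∈ Finset.range (n₀ + 1), (dd m : ℝ), ?_⟩
  intro n
  have hsum : (0 : ℝ) ≤ ∑ m ∈ Finset.range (n₀ + 1), (dd m : ℝ) :=
    Finset.sum_nonneg fun _ _ => Nat.cast_nonneg _
  have hc0 : (0 : ℝ) ≤ e * (27 * c + 9 * (c : ℝ) ^ 2 + (c : ℝ) ^ 3) := by positivity
  have hen : (0 : ℝ) ≤ e * n := by positivity
  by_cases hn : n < n₀ + 1
  · have := Finset.single_le_sum (f := fun m => (dd m : ℝ))
      (fun _ _ => Nat.cast_nonneg _) (Finset.mem_range.2 hn)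
    linarith
  · have := key n (by omega) (by omega)
    linarith

theorem theoremI_B {k K : Type u} [Field k] [CharZero k] [IsAlgClosed k] [Field K] [Algebra k K]
    [Algebra.EssFiniteType k K] (htr : Algebra.trdeg k K = 3) (S : GSys k K) {m : ℕ}
    (hstar : StarM k K K (S.L 1) m) {e : ℕ} (he : 1 ≤ e) (w : ℝ)
    (hw : ∀ᶠ n : ℕ in Filter.atTop, (Module.finrank k (S.L n) : ℝ) ≤ w * (n : ℝ) ^ 3)
    (h1 : (1 + 3 / (e : ℝ)) ^ 3 * w < (Module.finrank k (S.L 1) : ℝ))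
    (h2 : e * (2 * e + 2 * m + 2).choose 2 < Module.finrank k (S.L 1)) :
    ∃ F : IntermediateField k K, Algebra.trdeg F K = 1 ∧
      ∃ C : ℝ, ∀ n : ℕ,
        (Module.finrank F (Submodule.span F (S.L n : Set K)) : ℝ) ≤
          27 * (e * w / (Module.finrank k (S.L 1) : ℝ)) * n + C := by
  obtain ⟨C₀⟩ := exists_coord (k := k) (K := K) htr
  -- the prime P
  have hP : ∃ P : Ideal (K ⊗[k] K), P.IsPrime ∧ VIdeal S e ≤ P ∧ P ≤ dI k K ∧ P ≠ dI k K := by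
    by_contra hcon
    push Not at hcon
    obtain ⟨c, hc⟩ := all_exponents C₀ S he (fun Q hQ h3 h4 => hcon Q hQ h3 h4)
    exact absurd h1 (not_lt.2 (vol_bound C₀ S he hc w hw))
  obtain ⟨P, hP, hVP, hPI, hPne⟩ := hP
  obtain ⟨d, g, hg, hg0, hgd, hmax, hch⟩ := max_order C₀ S
  have hh1 : Module.finrank k (S.L 1) ≤ e * (d + 2).choose 2 := hb C₀ S hP hPI hPne hVP hmax
  have hd : 2 * e + 2 * m ≤ d := by
    by_contra hcon
    have h3 : (d + 2).choose 2 ≤ (2 * e + 2 * m + 2).choose 2 := Nat.choose_le_choose 2 (by omega)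
    have h4 := Nat.mul_le_mul_left e h3
    omega
  have hgP : OrdGE P (d + 1 - e) g := ord_compare S hP hVP hg hgd
  have hgP2 : OrdGE P (m + 1) g := OrdGE_mono (by omega) hgP
  -- transcendence degree
  have htrP : Algebra.trdeg K ((K ⊗[k] K) ⧸ P) = 1 := by
    have h3 : ¬ 2 ≤ Algebra.trdeg K ((K ⊗[k] K) ⧸ P) := by
      intro h4
      exact hstar g hg hg0 P hP h4 hgP2
    have h4 : Algebra.trdeg K ((K ⊗[k] K) ⧸ dI k K) < Algebra.trdeg K ((K ⊗[k] K) ⧸ P) :=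
      trdeg_quot_lt hP inferInstance (lt_of_le_of_ne hPI hPne) (trdeg_quot_fin hP)
    rw [trdeg_dI] at h4
    have h5 : 1 ≤ Algebra.trdeg K ((K ⊗[k] K) ⧸ P) := Cardinal.one_le_iff_pos.2 h4
    have h6 : Algebra.trdeg K ((K ⊗[k] K) ⧸ P) < 2 := not_le.1 h3
    have h7 : Algebra.trdeg K ((K ⊗[k] K) ⧸ P) ≤ 1 := by
      obtain ⟨n, hn⟩ := Cardinal.lt_aleph0.1 (h6.trans (by exact_mod_cast Cardinal.natCast_lt_aleph0 (n := 2)))
      rw [hn] at h6 ⊢
      have h8 : n < 2 := by exact_mod_cast h6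
      have h9 : n ≤ 1 := by omega
      exact_mod_cast h9
    exact le_antisymm h7 h5
  -- the two maps
  let x : K →ₐ[k] P.ResidueField :=
    (IsScalarTower.toAlgHom k (K ⊗[k] K) P.ResidueField).comp
      (Algebra.TensorProduct.includeLeft : K →ₐ[k] K ⊗[k] K)
  let y : K →ₐ[k] P.ResidueField :=
    (IsScalarTower.toAlgHom k (K ⊗[k] K) P.ResidueField).comp
      (Algebra.TensorProduct.includeRight : K →ₐ[k] K ⊗[k] K)
  have hxy : ∀ q : K ⊗[k] K, pt x y q = algebraMap (K ⊗[k] K) P.ResidueField q := by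
    intro q
    induction q using TensorProduct.induction_on with
    | zero => simp
    | add a b ha hb => rw [map_add, map_add, ha, hb]
    | tmul a b =>
      rw [pt_tmul]
      show algebraMap (K ⊗[k] K) P.ResidueField (a ⊗ₜ[k] 1) *
        algebraMap (K ⊗[k] K) P.ResidueField (1 ⊗ₜ[k] b) = _
      rw [← map_mul, Algebra.TensorProduct.tmul_mul_tmul, mul_one, one_mul]
  have hPxy : ptI x y = P := by
    ext q
    rw [mem_ptI, hxy, Ideal.algebraMap_residueField_eq_zero]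
  have hle : (ptI x y).map (chg K x) ≤ (ptI x y).map (chg K y) := by
    refine transitivityM S hstar x y (by rw [hPxy]; exact hPI) (by rw [hPxy]; exact htrP)
      (j := d + 1 - e) hg hg0 (by rw [hPxy]; exact hgP) ?_
    intro f hf hf'
    rw [hPxy]
    exact OrdGE_mono (by omega) (ord_compare S hP hVP hf hf')
  have hPI' : ptI x y ≤ dI k K := by rw [hPxy]; exact hPI
  have htrF : Algebra.trdeg (eqF x y) K = 1 := trdeg_eqF x y hle hPI' (by rw [hPxy]; exact htrP)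
  refine ⟨eqF x y, htrF, ?_⟩
  obtain ⟨C, hC0, hC1⟩ := exists_coord_adapted htr (eqF x y) htrF
  -- the set W
  let W : Set (K ⊗[k] K) := wset C g m
  have hWfin : W.Finite := wset_fin C g m
  have hWM : ∀ q ∈ W, q ∈ S.M K 1 := wset_M C S hg m
  have hWj : ∀ q ∈ W, OrdGE P (d + 1 - e - m) q := by
    intro q hq
    exact OrdGE_mono (by omega) (ord_compare S hP hVP (hWM q hq) (wset_ord C hgd m q hq))
  have hWP : Ideal.span W ≤ P := by
    rw [Ideal.span_le]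
    intro q hq
    have h3 : OrdGE P 1 q := OrdGE_mono (by omega) (hWj q hq)
    exact h3.1
  have hWmin : ∀ Q : Ideal (K ⊗[k] K), Q.IsPrime → Ideal.span W ≤ Q → Q ≤ P → Q = P := by
    intro Q hQ h3 h4
    exact prime_eqM S hstar hP htrP hg hg0 (J := Ideal.span W) (smGE_wset C g m) Q hQ h3 h4
  have hp0 : (1 : K) ⊗ₜ[k] C.c 0 - C.c 0 ⊗ₜ[k] (1 : K) ∈ P := by
    have := mem_ptI_eqF x y hC0
    rwa [hPxy] at this
  have hp1 : (1 : K) ⊗ₜ[k] C.c 1 - C.c 1 ⊗ₜ[k] (1 : K) ∈ P := by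
    have := mem_ptI_eqF x y hC1
    rwa [hPxy] at this
  have := hP
  obtain ⟨c, hc⟩ := degree_bound S C P hp0 hp1 W hWfin hWM hWj hWP hWmin
  -- numerics
  have hw0 : 0 ≤ w := by
    by_contra hneg
    push Not at hneg
    obtain ⟨n, hn, hn1⟩ := (hw.and (Filter.eventually_ge_atTop 1)).exists
    have hn' : (1 : ℝ) ≤ n := by exact_mod_cast hn1
    have h3 : w * (n : ℝ) ^ 3 < 0 := mul_neg_of_neg_of_pos hneg (by positivity)
    have h4 : (0 : ℝ) ≤ (Module.finrank k (S.L n) : ℝ) := Nat.cast_nonneg _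
    linarith
  have he' : (1 : ℝ) ≤ e := by exact_mod_cast he
  have hh0 : (0 : ℝ) < (Module.finrank k (S.L 1) : ℝ) := by exact_mod_cast Nat.zero_lt_of_lt h2
  have hwj : w ≤ 2 * (e * w / (Module.finrank k (S.L 1) : ℝ)) * ((d + 1 - e - m : ℕ) : ℝ) ^ 2 := by
    have h3 : ((d + 2).choose 2 : ℝ) = (d + 2) * (d + 1) / 2 := by
      rw [Nat.choose_two_right]
      have hdv : 2 ∣ (d + 2) * (d + 2 - 1) := (Nat.even_mul_pred_self (d + 2)).two_dvd
      rw [Nat.cast_div hdv (by norm_num), show d + 2 - 1 = d + 1 by omega]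
      push_cast
      ring
    have h4 : (Module.finrank k (S.L 1) : ℝ) ≤ e * ((d + 2) * (d + 1) / 2) := by
      rw [← h3]
      exact_mod_cast hh1
    have h5 : ((d + 1 - e - m : ℕ) : ℝ) = (d : ℝ) + 1 - e - m := by
      rw [Nat.cast_sub (by omega), Nat.cast_sub (by omega)]
      push_cast
      ring
    have h6 : (d : ℝ) + 2 ≤ 2 * ((d + 1 - e - m : ℕ) : ℝ) := by
      rw [h5]
      have : (2 * (e : ℝ) + 2 * m) ≤ d := by exact_mod_cast hd
      linarith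
    have hd0 : (0 : ℝ) ≤ d := Nat.cast_nonneg _
    have h7 : ((d : ℝ) + 2) * (d + 1) / 2 ≤ 2 * ((d + 1 - e - m : ℕ) : ℝ) ^ 2 := by
      nlinarith
    have h8 : (Module.finrank k (S.L 1) : ℝ) ≤ 2 * (e : ℝ) * ((d + 1 - e - m : ℕ) : ℝ) ^ 2 := by
      calc (Module.finrank k (S.L 1) : ℝ) ≤ e * ((d + 2) * (d + 1) / 2) := h4
        _ ≤ e * (2 * ((d + 1 - e - m : ℕ) : ℝ) ^ 2) :=
            mul_le_mul_of_nonneg_left h7 (by positivity)
        _ = 2 * (e : ℝ) * ((d + 1 - e - m : ℕ) : ℝ) ^ 2 := by ring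
    have h9 : 2 * (e * w / (Module.finrank k (S.L 1) : ℝ)) * ((d + 1 - e - m : ℕ) : ℝ) ^ 2 =
        w * (2 * (e : ℝ) * ((d + 1 - e - m : ℕ) : ℝ) ^ 2) / (Module.finrank k (S.L 1) : ℝ) := by ring
    rw [h9, le_div_iff₀ hh0]
    exact mul_le_mul_of_nonneg_left h8 hw0
  obtain ⟨Cc, hCc⟩ := arith_b (fun n => dN S P n) (fun n => Module.finrank k (S.L n)) c
    (d + 1 - e - m) (e * w / (Module.finrank k (S.L 1) : ℝ)) (by positivity) (by omega) w hw0 hc hw hwj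
  refine ⟨Cc, fun n => le_trans ?_ (hCc n)⟩
  have h3 := finrank_span_le S x y hle hPI' n
  rw [hPxy] at h3
  exact_mod_cast h3

end Pool.Agent.H83.TQ
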